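import Pool.Agent.Helper48.DU.Fin

/-!
Q1 for arbitrary ultrafilters, for lengths below which `α ^ κ ≤ α⁺`.
-/

set_option autoImplicit false

namespace Pool.Agent.Results.MP_c8cbe2_lc.AllUltrafiltersSCH

open Cardinal Order

universe u w

/-- Let `D` be any ultrafilter on an infinite set `ι`, `κ = |ι|`, `2 ^ κ < lam i`, and let the
Boolean algebra `B i` have a strictly increasing sequence of length `lam i`. Let
`μ ≤ |∏ lam i / D|` be such that `α ^ κ ≤ α⁺` whenever `2 ^ κ ≤ α` and `α⁺ < μ`. Then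
`∏ B i / D` has a strictly increasing sequence of length `μ`. -/
theorem result {ι : Type u} [Infinite ι] (D : Ultrafilter ι) (B : ι → Type w)
    [∀ i, BooleanAlgebra (B i)] (lam : ι → Cardinal.{u}) (hlam : ∀ i, 2 ^ #ι < lam i)
    (hB : ∀ i, ∃ f : Set.Iio (lam i).ord → B i, StrictMono f) (μ : Cardinal.{u+1})
    (hμ : μ ≤ #(Quot (fun f h : (∀ i, Set.Iio (lam i).ord) => {i | f i = h i} ∈ D)))
    (hpow : ∀ α : Cardinal.{u+1}, Cardinal.lift.{u+1} (2 ^ #ι) ≤ α → succ α < μ →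
      α ^ Cardinal.lift.{u+1} #ι ≤ succ α) :
    ∃ g : Set.Iio μ.ord → (∀ i, B i), ∀ α β, α < β → {i | g α i < g β i} ∈ D :=
  Pool.Agent.Helper48.DU.sch_all D lam hlam B hB μ hμ hpow

end Pool.Agent.Results.MP_c8cbe2_lc.AllUltrafiltersSCH
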