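import Pool.Agent.Helper95.CU.Top
import Pool.Agent.Helper95.CU.CohEx
import Pool.Agent.Helper95.CU.Card
import Pool.Agent.Helper95.CU.PropVal
import Pool.Agent.Helper95.CU.Fin

/-!
The implication of Q1 without the hypothesis that the lengths are larger than the power of the
index set is not a theorem of ZFC: in the Boolean-valued model for adding Cohen reals there is an
ultrafilter `U` on `ℕ` such that the ultrapower of `ℕ` by `U` has no well-ordered chain whose
length is the cardinality of the continuum.
-/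

set_option autoImplicit false

namespace Pool.Agent.Results.MP_c8cbe2_lc.CohenAlgebra

open Pool.Agent.Helper95.CU Cardinal

/-- There is an ultrafilter on `ℕ`, containing the cofinite sets, such that no sequence of length
continuum of functions from `ℕ` to `ℕ` increases strictly modulo the ultrafilter. -/
def NoChain : Prop :=
  ∃ U : Ultrafilter ℕ, (∀ m : ℕ, {m}ᶜ ∈ U) ∧
    ¬ ∃ g : Set.Iio (Cardinal.continuum.{0}).ord → ℕ → ℕ, ∀ α β, α < β → {n | g α n < g β n} ∈ U

theorem result :
    (Val Prop ↔ NoChain) ∧ (NoChain → ¬ Implication) ∧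
      ∃ (B : Type) (_ : CompleteBooleanAlgebra B), (⊥ : B) ≠ ⊤ ∧ Val B = ⊤ := by
  refine ⟨val_prop, fun ⟨U, hU, h⟩ => not_implication U hU h, ?_⟩
  obtain ⟨κ, hκ, h0, hω⟩ := exists_kappa
  obtain ⟨Λ, B, _, ⟨K⟩⟩ := exists_coh hκ h0 hω
  exact ⟨B, inferInstance, K.nt, val_top K hκ h0 hω⟩

end Pool.Agent.Results.MP_c8cbe2_lc.CohenAlgebra
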