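import Pool.Agent.Helper48.DU.Fin

/-!
Q1 for ultrafilters which are not `(ω, τ)`-regular: lengths closed under powers `< τ`.
-/

set_option autoImplicit false

namespace Pool.Agent.Results.MP_c8cbe2_lc.IrregularUltrafilters

open Cardinal

universe u w x

/-- `D` is `(ω, τ)`-regular: there is a family of `τ` many sets of `D` (indexed by the ordinals
below the initial ordinal of `τ`) such that every point lies in only finitely many of them. -/
def OmegaRegular {ι : Type u} (D : Ultrafilter ι) (τ : Cardinal.{x}) : Prop :=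
  ∃ A : Set.Iio τ.ord → Set ι, (∀ ξ, A ξ ∈ D) ∧ ∀ i, {ξ | i ∈ A ξ}.Finite

/-- Let `D` be an ultrafilter on an infinite set `ι`, `2 ^ |ι| < lam i` and let the Boolean algebra
`B i` have a strictly increasing sequence of length `lam i`. Let `τ` be a regular cardinal such
that `D` is not `(ω, τ)`-regular, and `μ ≤ |∏ lam i / D|` with `α ^ ρ` (all `ρ < τ`) bounded
by a cardinal below `μ`, for every `α < μ`. Then `∏ B i / D` has a strictly increasing sequence of
length `μ`. -/
theorem result {ι : Type u} [Infinite ι] (D : Ultrafilter ι) (B : ι → Type w)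
    [∀ i, BooleanAlgebra (B i)] (lam : ι → Cardinal.{u}) (hlam : ∀ i, 2 ^ #ι < lam i)
    (hB : ∀ i, ∃ f : Set.Iio (lam i).ord → B i, StrictMono f)
    (τ : Cardinal.{u+1}) (hτ : τ.IsRegular) (hD : ¬ OmegaRegular D τ) (μ : Cardinal.{u+1})
    (hμ : μ ≤ #(Quot (fun f h : (∀ i, Set.Iio (lam i).ord) => {i | f i = h i} ∈ D)))
    (hpow : ∀ α < μ, α ^< τ < μ) :
    ∃ g : Set.Iio μ.ord → (∀ i, B i), ∀ α β, α < β → {i | g α i < g β i} ∈ D :=
  Pool.Agent.Helper48.DU.irregular_all D lam hlam B hB τ hτ hD μ hμ hpow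

end Pool.Agent.Results.MP_c8cbe2_lc.IrregularUltrafilters
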