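import Mathlib

/-!
Reduction of Q1 to regular lengths: in an ultraproduct of infinite cardinals, the existence of
strictly increasing sequences of all regular lengths below a singular cardinal gives one of that
singular length.
-/

set_option autoImplicit false

namespace Pool.Agent.Results.MP_c8cbe2_lc.SingularLengths

open Cardinal Ordinal Order Set Filter

universe u v w x

/-- `Chain D P δ`: some sequence of length `δ` of elements of `∏ i, P i` is strictly increasing
modulo the ultrafilter `D`. -/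
def Chain {ι : Type u} (D : Ultrafilter ι) (P : ι → Type w) [∀ i, Preorder (P i)]
    (δ : Ordinal.{x}) : Prop :=
  ∃ g : Set.Iio δ → ∀ i, P i, ∀ α β, α < β → {i | g α i < g β i} ∈ D

section

variable {ι : Type u} (D : Ultrafilter ι) (lam : ι → Cardinal.{v})

/-- Bounded chains of ordinal-valued functions. -/
def Bd (δ : Ordinal.{x}) (b : ι → Ordinal.{v}) : Prop :=
  ∃ c : Ordinal.{x} → ι → Ordinal.{v}, (∀ α i, c α i < (lam i).ord) ∧
    (∀ α β, α < β → β < δ → ∀ᶠ i in (D : Filter ι), c α i < c β i) ∧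
    (∀ α, α < δ → ∀ᶠ i in (D : Filter ι), c α i < b i)

variable {D lam}

lemma Bd.mono {δ δ' : Ordinal.{x}} {b b' : ι → Ordinal.{v}} (h : Bd D lam δ b)
    (hδ : δ' ≤ δ) (hb : ∀ᶠ i in (D : Filter ι), b i ≤ b' i) : Bd D lam δ' b' := by
  obtain ⟨c, hc1, hc2, hc3⟩ := h
  refine ⟨c, hc1, fun α β h1 h2 => hc2 α β h1 (h2.trans_le hδ), fun α hα => ?_⟩
  filter_upwards [hc3 α (hα.trans_le hδ), hb] with i h1 h2
  exact h1.trans_le h2

lemma lam_pos (hlam : ∀ i, ℵ₀ ≤ lam i) (i : ι) : (0 : Ordinal) < (lam i).ord := by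
  rw [← Cardinal.ord_zero]
  exact Cardinal.ord_lt_ord.2 (lt_of_lt_of_le Cardinal.aleph0_pos (hlam i))

lemma lam_add (hlam : ∀ i, ℵ₀ ≤ lam i) (i : ι) {a b : Ordinal} (ha : a < (lam i).ord)
    (hb : b < (lam i).ord) : a + b < (lam i).ord :=
  isPrincipal_add_ord (hlam i) ha hb

lemma lam_mul (hlam : ∀ i, ℵ₀ ≤ lam i) (i : ι) {a b : Ordinal} (ha : a < (lam i).ord)
    (hb : b < (lam i).ord) : a * b < (lam i).ord :=
  isPrincipal_mul_ord (hlam i) ha hb

lemma eventually_lt_of_not (f g : ι → Ordinal.{v})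
    (h : ¬ ∀ᶠ i in (D : Filter ι), f i ≤ g i) : ∀ᶠ i in (D : Filter ι), g i < f i := by
  have := Ultrafilter.eventually_not.2 h
  filter_upwards [this] with i hi
  exact not_le.1 hi

/-- The main step. -/
theorem singular_step (hlam : ∀ i, ℵ₀ ≤ lam i) (μ : Cardinal.{x}) (hμ : μ.IsSingular)
    (H : ∀ δ : Ordinal.{x}, δ < μ.ord → ∃ b : ι → Ordinal.{v}, (∀ i, b i < (lam i).ord) ∧
      Bd D lam δ b) :
    ∃ c : Ordinal.{x} → ι → Ordinal.{v}, (∀ α i, c α i < (lam i).ord) ∧
      (∀ α β, α < β → β < μ.ord → ∀ᶠ i in (D : Filter ι), c α i < c β i) := by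
  classical
  have hlim : IsSuccLimit μ.ord := Cardinal.isSuccLimit_ord hμ.aleph0_le
  obtain ⟨θ, hθ⟩ : ∃ θ : Ordinal, θ = μ.ord.cof.ord := ⟨_, rfl⟩
  obtain ⟨f, hf⟩ := Ordinal.exists_isFundamentalSeq (o := μ.ord) hθ.symm
  have hθμ : θ < μ.ord := hθ ▸ Cardinal.ord_lt_ord.2 hμ.cof_ord_lt
  -- the index function
  have hcof : ∀ α, α < μ.ord → ∃ j, ∃ h : j < θ, α ≤ (f ⟨j, h⟩ : Ordinal) := by
    intro α hα
    obtain ⟨_, ⟨⟨j, hj⟩, rfl⟩, h⟩ := hf.isCofinal_range ⟨α, hα⟩
    exact ⟨j, hj, h⟩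
  let J : Ordinal → Ordinal := fun α => sInf {j | ∃ h : j < θ, α ≤ (f ⟨j, h⟩ : Ordinal)}
  have hJ : ∀ α, α < μ.ord → ∃ h : J α < θ, α ≤ (f ⟨J α, h⟩ : Ordinal) := by
    intro α hα
    exact csInf_mem (hcof α hα)
  have hJmono : ∀ α β, α ≤ β → β < μ.ord → J α ≤ J β := by
    intro α β h1 h2
    obtain ⟨h3, h4⟩ := hJ β h2
    exact csInf_le' ⟨h3, h1.trans h4⟩
  by_cases hA : ∃ b : ι → Ordinal.{v}, (∀ i, b i < (lam i).ord) ∧
      ∀ δ : Ordinal.{x}, δ < μ.ord → Bd D lam δ b
  · -- one bound for all lengths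
    obtain ⟨b, hb, hA⟩ := hA
    obtain ⟨a, ha1, ha2, ha3⟩ := hA θ hθμ
    have hc : ∀ j : Ordinal, ∃ c : Ordinal.{x} → ι → Ordinal.{v},
        (∀ α i, c α i < (lam i).ord) ∧ (∀ h : j < θ,
        (∀ α β, α < β → β ≤ (f ⟨j, h⟩ : Ordinal) → ∀ᶠ i in (D : Filter ι), c α i < c β i) ∧
        (∀ α, α ≤ (f ⟨j, h⟩ : Ordinal) → ∀ᶠ i in (D : Filter ι), c α i < b i)) := by
      intro j
      by_cases h : j < θ
      · have h1 : (f ⟨j, h⟩ : Ordinal) + 1 < μ.ord := hlim.add_one_lt (f ⟨j, h⟩).2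
        obtain ⟨c, hc1, hc2, hc3⟩ := hA _ h1
        refine ⟨c, hc1, fun _ => ⟨fun α β h2 h3 => hc2 α β h2 ?_, fun α h2 => hc3 α ?_⟩⟩
        · exact lt_add_one_iff.2 h3
        · exact lt_add_one_iff.2 h2
      · exact ⟨fun _ _ => 0, fun _ i => lam_pos hlam i, fun h' => absurd h' h⟩
    choose c hc1 hc2 using hc
    refine ⟨fun α i => b i * a (J α) i + c (J α) α i, ?_, ?_⟩
    · intro α i
      exact lam_add hlam i (lam_mul hlam i (hb i) (ha1 _ _)) (hc1 _ _ _)
    · intro α β hαβ hβ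
      have hα : α < μ.ord := hαβ.trans hβ
      obtain ⟨h1, h2⟩ := hJ α hα
      obtain ⟨h3, h4⟩ := hJ β hβ
      rcases (hJmono α β hαβ.le hβ).lt_or_eq with h | h
      · filter_upwards [ha2 _ _ h h3, (hc2 _ h1).2 α h2] with i h5 h6
        calc b i * a (J α) i + c (J α) α i < b i * a (J α) i + b i :=
              (add_lt_add_iff_left _).2 h6
          _ = b i * (a (J α) i + 1) := by rw [mul_add_one]
          _ ≤ b i * a (J β) i := by
              apply mul_le_mul_right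
              exact add_one_le_iff.2 h5
          _ ≤ _ := le_self_add
      · have h7 := (hc2 _ h3).1 α β hαβ h4
        simp only [h]
        filter_upwards [h7] with i h8
        exact (add_lt_add_iff_left _).2 h8
  · -- bounds have to grow
    push Not at hA
    have hΨ : ∀ b : ι → Ordinal.{v}, ∃ δ : Ordinal.{x}, δ < μ.ord ∧
        ((∀ i, b i < (lam i).ord) → ¬ Bd D lam δ b) := by
      intro b
      by_cases h : ∀ i, b i < (lam i).ord
      · obtain ⟨δ, h1, h2⟩ := hA b h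
        exact ⟨δ, h1, fun _ => h2⟩
      · exact ⟨0, hlim.bot_lt, fun h' => absurd h' h⟩
    choose Ψ hΨ1 hΨ2 using hΨ
    have hΦ : ∀ δ : Ordinal.{x}, ∃ b : ι → Ordinal.{v}, (∀ i, b i < (lam i).ord) ∧
        (δ < μ.ord → Bd D lam δ b) := by
      intro δ
      by_cases h : δ < μ.ord
      · obtain ⟨b, h1, h2⟩ := H δ h
        exact ⟨b, h1, fun _ => h2⟩
      · exact ⟨fun _ => 0, fun i => lam_pos hlam i, fun h' => absurd h' h⟩
    choose Φ hΦ1 hΦ2 using hΦ
    let s : Ordinal → Ordinal := fun j => if h : j < θ then (f ⟨j, h⟩ : Ordinal) + 1 else 0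
    let step : (j : Ordinal.{x}) → ((k : Ordinal.{x}) → k < j → Ordinal.{x}) → Ordinal.{x} :=
      fun j r => max (s j) (⨆ k : Set.Iio j, Ψ (fun i => Φ (r k.1 k.2) i + Φ (r k.1 k.2) i))
    let Δ : Ordinal.{x} → Ordinal.{x} := WellFounded.fix (wellFounded_lt) step
    have hΔ : ∀ j, Δ j = max (s j)
        (⨆ k : Set.Iio j, Ψ (fun i => Φ (Δ k.1) i + Φ (Δ k.1) i)) := by
      intro j
      exact WellFounded.fix_eq wellFounded_lt step j
    have hs : ∀ j, s j < μ.ord := by
      intro j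
      by_cases h : j < θ
      · simp only [s, h, dif_pos]
        exact hlim.add_one_lt (f ⟨j, h⟩).2
      · simp only [s, h, dif_neg, not_false_iff]
        exact hlim.bot_lt
    have hΔlt : ∀ j, j < θ → Δ j < μ.ord := by
      intro j hj
      rw [hΔ]
      apply max_lt (hs j)
      apply Ordinal.lift_iSup_lt_of_lt_cof
      · rw [Cardinal.mk_Iio_ordinal]
        rw [← Ordinal.lift_cof]
        simp only [Cardinal.lift_lift]
        apply Cardinal.lift_lt.2
        have h1 : j.card < μ.ord.cof := by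
          rw [← Cardinal.lt_ord, ← hθ]
          exact hj
        exact h1
      · intro k
        exact hΨ1 _
    have hΔs : ∀ j, s j ≤ Δ j := by
      intro j
      rw [hΔ]
      exact le_max_left _ _
    have hΔΨ : ∀ k j, k < j → Ψ (fun i => Φ (Δ k) i + Φ (Δ k) i) ≤ Δ j := by
      intro k j hkj
      rw [hΔ j]
      apply le_trans _ (le_max_right _ _)
      exact Ordinal.le_iSup (fun k : Set.Iio j => Ψ (fun i => Φ (Δ k.1) i + Φ (Δ k.1) i))
        ⟨k, hkj⟩
    have hgrow : ∀ k j, k < j → j < θ →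
        ∀ᶠ i in (D : Filter ι), Φ (Δ k) i + Φ (Δ k) i < Φ (Δ j) i := by
      intro k j hkj hj
      apply eventually_lt_of_not
      intro hle
      have h1 := (hΦ2 (Δ j) (hΔlt j hj)).mono (hΔΨ k j hkj) hle
      exact hΨ2 _ (fun i => lam_add hlam i (hΦ1 _ _) (hΦ1 _ _)) h1
    have hc : ∀ j : Ordinal, ∃ c : Ordinal.{x} → ι → Ordinal.{v},
        (∀ α i, c α i < (lam i).ord) ∧ (∀ h : j < θ,
        (∀ α β, α < β → β ≤ (f ⟨j, h⟩ : Ordinal) → ∀ᶠ i in (D : Filter ι), c α i < c β i) ∧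
        (∀ α, α ≤ (f ⟨j, h⟩ : Ordinal) → ∀ᶠ i in (D : Filter ι), c α i < Φ (Δ j) i)) := by
      intro j
      by_cases h : j < θ
      · obtain ⟨c, hc1, hc2, hc3⟩ := hΦ2 (Δ j) (hΔlt j h)
        have h1 : (f ⟨j, h⟩ : Ordinal) + 1 ≤ Δ j := by
          have := hΔs j
          simp only [s, h, dif_pos] at this
          exact this
        refine ⟨c, hc1, fun _ => ⟨fun α β h2 h3 => hc2 α β h2 ?_, fun α h2 => hc3 α ?_⟩⟩
        · exact (lt_add_one_iff.2 h3).trans_le h1
        · exact (lt_add_one_iff.2 h2).trans_le h1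
      · exact ⟨fun _ _ => 0, fun _ i => lam_pos hlam i, fun h' => absurd h' h⟩
    choose c hc1 hc2 using hc
    refine ⟨fun α i => Φ (Δ (J α)) i + c (J α) α i, ?_, ?_⟩
    · intro α i
      exact lam_add hlam i (hΦ1 _ _) (hc1 _ _ _)
    · intro α β hαβ hβ
      have hα : α < μ.ord := hαβ.trans hβ
      obtain ⟨h1, h2⟩ := hJ α hα
      obtain ⟨h3, h4⟩ := hJ β hβ
      rcases (hJmono α β hαβ.le hβ).lt_or_eq with h | h
      · filter_upwards [hgrow _ _ h h3, (hc2 _ h1).2 α h2] with i h5 h6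
        calc Φ (Δ (J α)) i + c (J α) α i < Φ (Δ (J α)) i + Φ (Δ (J α)) i :=
              (add_lt_add_iff_left _).2 h6
          _ ≤ Φ (Δ (J β)) i := h5.le
          _ ≤ _ := le_self_add
      · have h7 := (hc2 _ h3).1 α β hαβ h4
        simp only [h]
        filter_upwards [h7] with i h8
        exact (add_lt_add_iff_left _).2 h8

/-- A chain of length `δ` in the product gives a bounded chain of each smaller length. -/
lemma bd_of_chain (hlam : ∀ i, ℵ₀ ≤ lam i) {δ δ' : Ordinal.{x}} (hδ : δ < δ')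
    (h : Chain D (fun i => Set.Iio (lam i).ord) δ') :
    ∃ b : ι → Ordinal.{v}, (∀ i, b i < (lam i).ord) ∧ Bd D lam δ b := by
  classical
  obtain ⟨g, hg⟩ := h
  refine ⟨fun i => (g ⟨δ, hδ⟩ i).1, fun i => (g ⟨δ, hδ⟩ i).2, ?_⟩
  refine ⟨fun α i => if h : α < δ' then (g ⟨α, h⟩ i).1 else 0, ?_, ?_, ?_⟩
  · intro α i
    by_cases h : α < δ'
    · simp only [h, dif_pos]
      exact (g ⟨α, h⟩ i).2
    · simp only [h, dif_neg, not_false_iff]
      exact lam_pos hlam i
  · intro α β h1 h2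
    have h3 : β < δ' := h2.trans hδ
    have h4 : α < δ' := h1.trans h3
    simp only [h3, h4, dif_pos]
    exact hg ⟨α, h4⟩ ⟨β, h3⟩ h1
  · intro α h1
    have h4 : α < δ' := h1.trans hδ
    simp only [h4, dif_pos]
    exact hg ⟨α, h4⟩ ⟨δ, hδ⟩ h1

end

/-- Let `D` be an ultrafilter, `lam i` infinite cardinals and `P i` preorders containing strictly
increasing sequences of length `lam i`. If `∏ lam i / D` has strictly increasing sequences of every
regular length `σ ≤ μ`, then `∏ P i / D` has a strictly increasing sequence of length `μ`. -/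
theorem result {ι : Type u} (D : Ultrafilter ι) (lam : ι → Cardinal.{v}) (P : ι → Type w)
    [∀ i, Preorder (P i)] (hlam : ∀ i, ℵ₀ ≤ lam i)
    (hP : ∀ i, ∃ f : Set.Iio (lam i).ord → P i, StrictMono f) (μ : Cardinal.{x})
    (H : ∀ σ : Cardinal.{x}, σ.IsRegular → σ ≤ μ →
      Chain D (fun i => Set.Iio (lam i).ord) σ.ord) :
    Chain D P μ.ord := by
  classical
  choose e he using hP
  suffices h : Chain D (fun i => Set.Iio (lam i).ord) μ.ord by
    obtain ⟨g, hg⟩ := h
    refine ⟨fun α i => e i (g α i), fun α β h => ?_⟩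
    filter_upwards [hg α β h] with i hi
    exact he i hi
  rcases Cardinal.lt_aleph0_or_isRegular_or_isSingular (c := μ) with h | h | h
  · -- finite length
    have hfin : ∀ α : Set.Iio μ.ord, ∃ n : ℕ, (α : Ordinal) = n := by
      intro α
      have h1 : (α : Ordinal) < ω := by
        refine lt_trans α.2 ?_
        rw [← Cardinal.ord_aleph0]
        exact Cardinal.ord_lt_ord.2 h
      exact Ordinal.lt_omega0.1 h1
    choose n hn using hfin
    refine ⟨fun α i => ⟨(n α : Ordinal), ?_⟩, fun α β hαβ => ?_⟩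
    · show (n α : Ordinal) < (lam i).ord
      refine lt_of_lt_of_le (Ordinal.natCast_lt_omega0 (n α)) ?_
      rw [← Cardinal.ord_aleph0]
      exact Cardinal.ord_le_ord.2 (hlam i)
    · refine Filter.univ_mem' (fun i => ?_)
      show (n α : Ordinal) < (n β : Ordinal)
      have h1 : (α : Ordinal) < β := hαβ
      rw [hn α, hn β] at h1
      exact_mod_cast h1
  · exact H μ h le_rfl
  · -- singular length
    have hH : ∀ δ : Ordinal.{x}, δ < μ.ord → ∃ b : ι → Ordinal.{v},
        (∀ i, b i < (lam i).ord) ∧ Bd D lam δ b := by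
      intro δ hδ
      have h1 : δ.card < μ := Cardinal.lt_ord.1 hδ
      have h2 : ℵ₀ < μ := lt_of_le_of_ne h.aleph0_le (by
        rintro rfl
        exact Cardinal.not_isSingular_aleph0 h)
      have h3 : max δ.card ℵ₀ < μ := max_lt h1 h2
      have h4 : succ (max δ.card ℵ₀) ≤ μ := succ_le_of_lt h3
      have h5 : (succ (max δ.card ℵ₀)).IsRegular := Cardinal.isRegular_succ (le_max_right _ _)
      have h6 : δ < (succ (max δ.card ℵ₀)).ord := by
        rw [Cardinal.lt_ord]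
        exact lt_succ_of_le (le_max_left _ _)
      exact bd_of_chain hlam h6 (H _ h5 h4)
    obtain ⟨c, hc1, hc2⟩ := singular_step hlam μ h hH
    refine ⟨fun α i => ⟨c α i, hc1 α i⟩, fun α β hαβ => ?_⟩
    exact hc2 α β hαβ β.2

end Pool.Agent.Results.MP_c8cbe2_lc.SingularLengths
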